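import Mathlib
import Pool.Agent.Helper81K1.LR.Start

/-!
Large primes, or many primes.
-/

set_option autoImplicit false

namespace Pool.Agent.Helper81K1.LR

open Finset Filter
open Pool.Agent.Helper81K1.OJ Pool.Agent.Helper81K1.LP

theorem cor (ε η : ℝ) (hε : 0 < ε) (hη : 0 ≤ η) (hεη : η + ε < 1 / 2) (t : ℕ) :
    ∃ N₀ : ℕ, ∀ N ≥ N₀, Odd N → Nat.Perfect N →
    (∀ p ∈ N.primeFactors,
      (p : ℝ) ≤ Real.exp (Real.exp (Real.log (Real.log N) ^ (1 / 2 - η - ε)))) →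
    (N.primeFactors.filter
      (fun p : ℕ => Real.exp (Real.log (Real.log N) ^ (1 + η)) < (p : ℝ))).card ≤ t →
    Real.exp (√ε / 200 * √(Real.log (Real.log N) * Real.log (Real.log (Real.log N)))) ≤
      N.primeFactors.card := by
  classical
  obtain ⟨a, ha⟩ : ∃ a : ℝ, a = 1 / 2 - η - ε := ⟨_, rfl⟩
  have ha0 : 0 < a := by rw [ha]; linarith
  have ha2 : a ≤ 1 / 2 := by rw [ha]; linarith
  -- constants
  obtain ⟨C1, hC1⟩ : ∃ C1 : ℝ, C1 = √ε / 100 + 2 + 4 * (2 * ((t:ℝ) + 1) * (26 + 6 * Real.log ((t:ℝ) + 1) + 10)) + 6 :=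
    ⟨_, rfl⟩
  obtain ⟨C2, hC2⟩ : ∃ C2 : ℝ, C2 = 1716 * (√ε / 200 + (3 + t) + (3 + t) * (2 / ε) * (√ε / 200)) :=
    ⟨_, rfl⟩
  have hlt : 0 ≤ Real.log ((t:ℝ) + 1) := Real.log_nonneg (by have : (0:ℝ) ≤ t := Nat.cast_nonneg _; linarith)
  have ev := (ev_log_pow (1 + η) 1 (a := a) ha0).and ((ev_log_pow (2 * C1) 1 (a := 1 / 2) (by norm_num)).and
    ((ev_log_pow (3 * C2) 1 (a := ε / 2) (by positivity)).and
    ((ev_log_pow 2 0 (a := ε / 2) (by positivity)).and
    ((Real.tendsto_log_atTop.eventually_ge_atTop 1).and (eventually_ge_atTop (5 : ℝ))))))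
  obtain ⟨x0, hx0⟩ := eventually_atTop.1 ev
  refine ⟨⌈Real.exp (Real.exp x0)⌉₊ + 1, fun N hN hodd hperf hP hbig => ?_⟩
  have H : OPN N := ⟨hodd, hperf⟩
  have hNx : Real.exp (Real.exp x0) ≤ N := by
    have h1 : Real.exp (Real.exp x0) ≤ ⌈Real.exp (Real.exp x0)⌉₊ := Nat.le_ceil _
    have h2 : ((⌈Real.exp (Real.exp x0)⌉₊ : ℕ) : ℝ) ≤ N := by
      exact_mod_cast (by omega : ⌈Real.exp (Real.exp x0)⌉₊ ≤ N)
    linarith
  have hN0 : (0:ℝ) < N := lt_of_lt_of_le (Real.exp_pos _) hNx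
  have hlogN : Real.exp x0 ≤ Real.log N := by rw [Real.le_log_iff_exp_le hN0]; exact hNx
  have hlogN0 : 0 < Real.log N := lt_of_lt_of_le (Real.exp_pos _) hlogN
  obtain ⟨x, hx⟩ : ∃ x : ℝ, x = Real.log (Real.log N) := ⟨_, rfl⟩
  have hxx0 : x0 ≤ x := by rw [hx, Real.le_log_iff_exp_le hlogN0]; exact hlogN
  have hexpx : Real.exp x = Real.log N := by rw [hx, Real.exp_log hlogN0]
  rw [← hx, ← ha] at hP
  rw [← hx] at hbig ⊢
  obtain ⟨ev1, ev2, ev3, ev4, ev5, ev6⟩ := hx0 x hxx0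
  rw [pow_one] at ev1 ev2 ev3
  rw [pow_zero, mul_one] at ev4
  obtain ⟨ℓ, hℓ⟩ : ∃ ℓ : ℝ, ℓ = Real.log x := ⟨_, rfl⟩
  rw [← hℓ] at ev1 ev2 ev3 ev5 ⊢
  have hxpos : 0 < x := by linarith
  have hx1 : 1 ≤ x := by linarith
  have hℓ0 : 0 < ℓ := by linarith
  by_contra hcon
  rw [not_le] at hcon
  obtain ⟨k, hk⟩ : ∃ k : ℕ, k = N.primeFactors.card := ⟨_, rfl⟩
  rw [← hk] at hcon
  have hne : N.primeFactors.Nonempty := by
    rw [Nat.nonempty_primeFactors]
    have h0 := H.ne_zero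
    have h1 := H.ne_one
    omega
  have hk1 : 1 ≤ k := by rw [hk]; exact Finset.card_pos.2 hne
  have hk1r : (1:ℝ) ≤ k := by exact_mod_cast hk1
  obtain ⟨κ, hκ⟩ : ∃ κ : ℝ, κ = √ε / 200 * √(x * ℓ) := ⟨_, rfl⟩
  rw [← hκ] at hcon
  have hlogk : Real.log k < κ := by rwa [Real.log_lt_iff_lt_exp (by linarith)]
  have hlogk0 : 0 ≤ Real.log k := Real.log_nonneg hk1r
  have hκ0 : 0 < κ := by linarith
  have hκ2 : κ ^ 2 = ε * x * ℓ / 40000 := by
    rw [hκ, mul_pow, div_pow, Real.sq_sqrt hε.le, Real.sq_sqrt (by positivity)]; ring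
  have hκle : κ ≤ √ε / 200 * (√x * ℓ) := by
    rw [hκ, Real.sqrt_mul (by positivity)]
    have h1 : √ℓ ≤ ℓ := by
      rw [Real.sqrt_le_left hℓ0.le]
      exact le_self_pow₀ ev5 (by norm_num)
    apply mul_le_mul_of_nonneg_left _ (by positivity)
    exact mul_le_mul_of_nonneg_left h1 (by positivity)
  -- `Y` and `Z`
  obtain ⟨Y, hY⟩ : ∃ Y : ℕ, Y = ⌊Real.exp (x ^ (1 + η))⌋₊ := ⟨_, rfl⟩
  obtain ⟨Z, hZ⟩ : ∃ Z : ℕ, Z = ⌊Real.exp (Real.exp (x ^ a))⌋₊ := ⟨_, rfl⟩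
  have hpowle : x ^ (1 + η) ≤ Real.exp (x ^ a) := by
    rw [← Real.log_le_iff_le_exp (by positivity), Real.log_rpow hxpos, ← hℓ]
    exact ev1.le
  have hYZ : Y ≤ Z := by
    rw [hY, hZ]
    exact Nat.floor_le_floor (Real.exp_le_exp.2 hpowle)
  have h5pow : (5:ℝ) ≤ x ^ (1 + η) := by
    calc (5:ℝ) ≤ x := ev6
      _ = x ^ (1:ℝ) := (Real.rpow_one x).symm
      _ ≤ _ := Real.rpow_le_rpow_of_exponent_le hx1 (by linarith)
  have hexp5 : (73:ℝ) ≤ Real.exp 5 := by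
    have h1 : Real.exp 5 = Real.exp 1 ^ 5 := by rw [← Real.exp_nat_mul]; norm_num
    have h2 : (2.7182818283:ℝ) ^ 5 ≤ Real.exp 1 ^ 5 :=
      pow_le_pow_left₀ (by norm_num) Real.exp_one_gt_d9.le 5
    rw [h1]
    exact le_trans (by norm_num) h2
  have hY73 : 73 ≤ Y := by
    rw [hY]
    apply Nat.le_floor
    push_cast
    exact hexp5.trans (Real.exp_le_exp.2 h5pow)
  have h73 : 73 ≤ Z := hY73.trans hYZ
  have hPZ : ∀ p ∈ N.primeFactors, p ≤ Z := fun p hp => by rw [hZ]; exact Nat.le_floor (hP p hp)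
  have hbY : (N.primeFactors.filter (fun p => Y < p)).card ≤ t := by
    refine le_trans (Finset.card_le_card ?_) hbig
    intro p hp
    rw [Finset.mem_filter] at hp ⊢
    refine ⟨hp.1, ?_⟩
    rw [hY] at hp
    exact Nat.lt_of_floor_lt hp.2
  have hY0 : (0:ℝ) < Y := by exact_mod_cast (by omega : 0 < Y)
  have hZ0 : (0:ℝ) < Z := by exact_mod_cast (by omega : 0 < Z)
  have hlogY : Real.log Y ≤ x ^ (1 + η) := by
    rw [Real.log_le_iff_le_exp hY0, hY]
    exact Nat.floor_le (Real.exp_pos _).le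
  have hlogZ : Real.log Z ≤ Real.exp (x ^ a) := by
    rw [Real.log_le_iff_le_exp hZ0, hZ]
    exact Nat.floor_le (Real.exp_pos _).le
  have hlogZ1 : 1 ≤ Real.log Z := by
    refine log3.trans (Real.log_le_log (by norm_num) ?_)
    exact_mod_cast (by omega : 3 ≤ Z)
  have hllZ : Real.log (Real.log Z) ≤ x ^ a := by
    rw [Real.log_le_iff_le_exp (by linarith)]
    exact hlogZ
  have hllZ0 : 0 ≤ Real.log (Real.log Z) := Real.log_nonneg hlogZ1
  have hxa1 : 1 ≤ x ^ a := Real.one_le_rpow hx1 ha0.le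
  have hxa2 : x ^ a ≤ √x := by
    rw [Real.sqrt_eq_rpow]; exact Real.rpow_le_rpow_of_exponent_le hx1 ha2
  have hsqx1 : 1 ≤ √x := by rw [Real.one_le_sqrt]; exact hx1
  -- start
  have hst : ∃ q ∈ N.primeFactors, q ≤ Y ∧ x / 2 ≤ Real.log (N.factorization q) := by
    by_contra hno
    push Not at hno
    obtain ⟨E, hE⟩ : ∃ E : ℕ, E = ⌊Real.exp (x / 2)⌋₊ := ⟨_, rfl⟩
    have hE1 : 1 ≤ E := by
      rw [hE]
      apply Nat.le_floor
      push_cast
      exact Real.one_le_exp (by positivity)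
    have hEle : (E:ℝ) ≤ Real.exp (x / 2) := by rw [hE]; exact Nat.floor_le (Real.exp_pos _).le
    obtain ⟨y, hyd⟩ : ∃ y : ℕ, y = ⌈Real.log Z⌉₊ := ⟨_, rfl⟩
    have hyge : Real.log Z ≤ y := by rw [hyd]; exact Nat.le_ceil _
    have hy1r : (1:ℝ) ≤ y := by linarith
    have hy1 : 1 ≤ y := by exact_mod_cast hy1r
    have hyle : (y:ℝ) ≤ 2 * Real.exp (x ^ a) := by
      have h1 : (y:ℝ) < Real.log Z + 1 := by rw [hyd]; exact Nat.ceil_lt_add_one (by positivity)
      have h2 : 1 ≤ Real.exp (x ^ a) := Real.one_le_exp (by positivity)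
      linarith
    have hsm : ∀ q ∈ N.primeFactors, q ≤ Y → N.factorization q ≤ E := by
      intro q hq hqY
      have h1 := hno q hq hqY
      have h2 : (0:ℝ) < N.factorization q := by exact_mod_cast H.one_le_e hq
      rw [hE]
      apply Nat.le_floor
      rw [Real.log_lt_iff_lt_exp h2] at h1
      exact h1.le
    have h1 := start H Y Z y t E h73 hPZ hbY hE1 hy1 hyge hsm
    rw [← hk] at h1
    obtain ⟨B, hB⟩ : ∃ B : ℝ, B = 16 * 10 ^ 9 * ((t:ℝ) + 1) ^ 6 * (y:ℝ) ^ 5 := ⟨_, rfl⟩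
    rw [← hB] at h1
    have ht1 : (0:ℝ) < (t:ℝ) + 1 := by positivity
    have hB0 : 0 < B := by rw [hB]; positivity
    have hEpos : (0:ℝ) < E := by exact_mod_cast hE1
    have h2 : x ≤ Real.log k + (Real.log 3 + Real.log k + Real.log y + (2 * ((t:ℝ) + 1)) * Real.log B +
        Real.log E) + Real.log y := by
      have h3 := Real.log_le_log hlogN0 h1
      rw [← hx] at h3
      refine h3.trans (le_of_eq ?_)
      rw [Real.log_mul (by positivity) (by positivity), Real.log_mul (by positivity) (by positivity),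
        Real.log_mul (by positivity) (by positivity), Real.log_mul (by positivity) (by positivity),
        Real.log_mul (by positivity) (by positivity), Real.log_mul (by positivity) (by positivity),
        Real.log_pow]
      push_cast
      ring
    have hlogE : Real.log E ≤ x / 2 := by
      rw [Real.log_le_iff_le_exp hEpos]; exact hEle
    have hlogy : Real.log y ≤ 1 + x ^ a := by
      have hlog2 : Real.log 2 < 0.6931471808 := Real.log_two_lt_d9
      calc Real.log y ≤ Real.log (2 * Real.exp (x ^ a)) := Real.log_le_log (by linarith) hyle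
        _ = Real.log 2 + x ^ a := by rw [Real.log_mul (by norm_num) (Real.exp_pos _).ne', Real.log_exp]
        _ ≤ _ := by linarith
    have hlog3 : Real.log 3 ≤ 2 := by
      have := Real.log_le_sub_one_of_pos (show (0:ℝ) < 3 by norm_num)
      linarith
    have hlogy2 : Real.log y ≤ 2 * √x := by linarith
    have hlogB : Real.log B ≤ (26 + 6 * Real.log ((t:ℝ) + 1) + 10) * √x := by
      have hl10 := log10
      have h1 : Real.log B ≤ 11 * Real.log 10 + 6 * Real.log ((t:ℝ) + 1) + 5 * Real.log y := by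
        calc Real.log B ≤ Real.log (10 ^ 11 * ((t:ℝ) + 1) ^ 6 * (y:ℝ) ^ 5) := by
              apply Real.log_le_log hB0
              rw [hB]
              apply mul_le_mul_of_nonneg_right _ (by positivity)
              apply mul_le_mul_of_nonneg_right _ (by positivity)
              norm_num
          _ = _ := by
            rw [Real.log_mul (by positivity) (by positivity), Real.log_mul (by positivity) (by positivity),
              Real.log_pow, Real.log_pow, Real.log_pow]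
            push_cast
            ring
      have h2 : 6 * Real.log ((t:ℝ) + 1) ≤ 6 * Real.log ((t:ℝ) + 1) * √x :=
        le_mul_of_one_le_right (by positivity) hsqx1
      have h3 : (26:ℝ) ≤ 26 * √x := by linarith
      have h4 : (26 + 6 * Real.log ((t:ℝ) + 1) + 10) * √x =
        26 * √x + 6 * Real.log ((t:ℝ) + 1) * √x + 10 * √x := by ring
      rw [h4]
      linarith
    have hBt : (2 * ((t:ℝ) + 1)) * Real.log B ≤
        (2 * ((t:ℝ) + 1) * (26 + 6 * Real.log ((t:ℝ) + 1) + 10)) * √x := by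
      rw [mul_assoc (2 * ((t:ℝ) + 1))]
      exact mul_le_mul_of_nonneg_left hlogB (by positivity)
    obtain ⟨Ct, hCt⟩ : ∃ Ct : ℝ, Ct = 2 * ((t:ℝ) + 1) * (26 + 6 * Real.log ((t:ℝ) + 1) + 10) := ⟨_, rfl⟩
    rw [← hCt] at hBt hC1
    have hCt0 : 0 ≤ Ct := by rw [hCt]; positivity
    have hsℓ : √x ≤ √x * ℓ := le_mul_of_one_le_right (by positivity) ev5
    have hCts : Ct * √x ≤ Ct * (√x * ℓ) := mul_le_mul_of_nonneg_left hsℓ hCt0
    have h3 : x / 2 ≤ C1 * (√x * ℓ) := by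
      have e1 : C1 * (√x * ℓ) = 2 * (√ε / 200 * (√x * ℓ)) + 2 * (√x * ℓ) + 4 * (Ct * (√x * ℓ)) +
        6 * (√x * ℓ) := by rw [hC1]; ring
      have e2 : 0 ≤ Ct * (√x * ℓ) := by positivity
      rw [e1]
      linarith
    have h4 : 2 * C1 * ℓ < √x := by rw [Real.sqrt_eq_rpow]; exact ev2
    have h5 : 2 * C1 * ℓ * √x < √x * √x := mul_lt_mul_of_pos_right h4 (by linarith)
    rw [Real.mul_self_sqrt hxpos.le] at h5
    linarith
  obtain ⟨q, hq, hqY, hqF⟩ := hst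
  obtain ⟨F, hF⟩ : ∃ F : ℝ, F = Real.log (N.factorization q) := ⟨_, rfl⟩
  rw [← hF] at hqF
  have hmain := main_i2 H Y Z t h73 hYZ hPZ hbY q hq hqY (x ^ (ε / 2)) ev4.le
  rw [← hk, ← hF, Real.log_rpow hxpos, ← hℓ] at hmain
  have hFpos : 0 < F := by linarith
  -- `L / F`
  have hxη1 : 1 ≤ x ^ η := Real.one_le_rpow hx1 hη
  have hLF : Real.log Y / F ≤ 2 * x ^ η := by
    rw [div_le_iff₀ hFpos]
    have h1 : x ^ (1 + η) = x * x ^ η := by rw [Real.rpow_add hxpos, Real.rpow_one]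
    have h2 : x * x ^ η ≤ 2 * x ^ η * F := by
      have : x / 2 * (2 * x ^ η) ≤ F * (2 * x ^ η) := mul_le_mul_of_nonneg_right hqF (by positivity)
      linarith
    linarith
  obtain ⟨X, hX⟩ : ∃ X : ℝ, X = x ^ (1 / 2 - ε / 2) := ⟨_, rfl⟩
  have hXpos : 0 < X := by rw [hX]; positivity
  have ht0 : (0:ℝ) ≤ t := Nat.cast_nonneg _
  have hXeq : x ^ (ε / 2) * x ^ η * x ^ a = X := by
    rw [hX, ← Real.rpow_add hxpos, ← Real.rpow_add hxpos, ha]
    congr 1
    ring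
  have hg1 : 1 ≤ x ^ (ε / 2) := by linarith
  have hQX : (x ^ (ε / 2) * (1 + Real.log Y / F) + t) * Real.log (Real.log Z) ≤ (3 + t) * X := by
    have h1 : x ^ (ε / 2) * (1 + Real.log Y / F) ≤ x ^ (ε / 2) * (3 * x ^ η) :=
      mul_le_mul_of_nonneg_left (by linarith) (by positivity)
    have h2 : (t:ℝ) ≤ t * (x ^ (ε / 2) * x ^ η) :=
      le_mul_of_one_le_right ht0 (one_le_mul_of_one_le_of_one_le hg1 hxη1)
    have h3 : x ^ (ε / 2) * (1 + Real.log Y / F) + t ≤ (3 + t) * (x ^ (ε / 2) * x ^ η) := by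
      have e : (3 + (t:ℝ)) * (x ^ (ε / 2) * x ^ η) =
        x ^ (ε / 2) * (3 * x ^ η) + t * (x ^ (ε / 2) * x ^ η) := by ring
      linarith
    calc (x ^ (ε / 2) * (1 + Real.log Y / F) + t) * Real.log (Real.log Z) ≤
          ((3 + t) * (x ^ (ε / 2) * x ^ η)) * x ^ a :=
            mul_le_mul h3 hllZ hllZ0 (by positivity)
      _ = (3 + t) * (x ^ (ε / 2) * x ^ η * x ^ a) := by ring
      _ = _ := by rw [hXeq]
  have hfin : F ≤ 1716 * ((1 + κ / (ε / 2 * ℓ)) * (κ + (3 + t) * X)) := by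
    refine hmain.trans ?_
    rw [mul_assoc]
    apply mul_le_mul_of_nonneg_left _ (by norm_num)
    have h1 : 1 + Real.log k / (ε / 2 * ℓ) ≤ 1 + κ / (ε / 2 * ℓ) := by
      have := div_le_div_of_nonneg_right hlogk.le (show 0 ≤ ε / 2 * ℓ by positivity)
      linarith
    have h2 : Real.log k + (x ^ (ε / 2) * (1 + Real.log Y / F) + t) * Real.log (Real.log Z) ≤
        κ + (3 + t) * X := by linarith
    have hLY0 : 0 ≤ Real.log Y := Real.log_natCast_nonneg _
    exact mul_le_mul h1 h2 (by positivity) (by positivity)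
  have hfin2 : (1 + κ / (ε / 2 * ℓ)) * (κ + (3 + t) * X) =
      x / 20000 + κ + (3 + t) * X + (3 + t) * (2 / ε) * (κ / ℓ * X) := by
    have e1 : (1 + κ / (ε / 2 * ℓ)) * (κ + (3 + t) * X) =
      2 * κ ^ 2 / (ε * ℓ) + κ + (3 + t) * X + (3 + t) * (2 / ε) * (κ / ℓ * X) := by
      field_simp
      ring
    rw [e1, hκ2]
    have e2 : 2 * (ε * x * ℓ / 40000) / (ε * ℓ) = x / 20000 := by
      field_simp
      ring
    rw [e2]
  obtain ⟨V, hV⟩ : ∃ V : ℝ, V = x ^ (1 - ε / 2) := ⟨_, rfl⟩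
  have hVsq : √x * X = V := by
    rw [hX, hV, Real.sqrt_eq_rpow, ← Real.rpow_add hxpos]
    congr 1
    ring
  have hVℓ : V ≤ V * ℓ := le_mul_of_one_le_right (by rw [hV]; positivity) ev5
  have hsV : √x ≤ V := by
    rw [hV, Real.sqrt_eq_rpow]; exact Real.rpow_le_rpow_of_exponent_le hx1 (by linarith)
  have hXV : X ≤ V := by
    rw [hV, hX]; exact Real.rpow_le_rpow_of_exponent_le hx1 (by linarith)
  have b1 : κ ≤ √ε / 200 * (V * ℓ) :=
    hκle.trans (mul_le_mul_of_nonneg_left (mul_le_mul_of_nonneg_right hsV hℓ0.le) (by positivity))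
  have b2 : (3 + t) * X ≤ (3 + t) * (V * ℓ) := mul_le_mul_of_nonneg_left (by linarith) (by positivity)
  have b3 : (3 + t) * (2 / ε) * (κ / ℓ * X) ≤ (3 + t) * (2 / ε) * (√ε / 200) * (V * ℓ) := by
    rw [mul_assoc ((3 + (t:ℝ)) * (2 / ε)) (√ε / 200)]
    apply mul_le_mul_of_nonneg_left _ (by positivity)
    have h1 : κ / ℓ ≤ √ε / 200 * √x := by
      rw [div_le_iff₀ hℓ0]
      linarith
    calc κ / ℓ * X ≤ √ε / 200 * √x * X := mul_le_mul_of_nonneg_right h1 hXpos.le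
      _ = √ε / 200 * V := by rw [mul_assoc, hVsq]
      _ ≤ _ := mul_le_mul_of_nonneg_left hVℓ (by positivity)
  have hfin3 : x / 2 ≤ 1716 * (x / 20000) + C2 * (V * ℓ) := by
    have e : C2 * (V * ℓ) = 1716 * (√ε / 200 * (V * ℓ) + (3 + t) * (V * ℓ) +
      (3 + t) * (2 / ε) * (√ε / 200) * (V * ℓ)) := by rw [hC2]; ring
    rw [e]
    rw [hfin2] at hfin
    linarith
  have hfin4 : 3 * C2 * ℓ * V < x := by
    have h1 : x ^ (ε / 2) * V = x := by
      rw [hV, ← Real.rpow_add hxpos]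
      have : ε / 2 + (1 - ε / 2) = 1 := by ring
      rw [this, Real.rpow_one]
    have h2 : 3 * C2 * ℓ * V < x ^ (ε / 2) * V := mul_lt_mul_of_pos_right ev3 (by linarith)
    linarith
  linarith

end Pool.Agent.Helper81K1.LR
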