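import Mathlib
import Pool.Agent.Helper81K1.LR.Start

/-!
Many large prime factors.
-/

set_option autoImplicit false

namespace Pool.Agent.Helper81K1.LR

open Finset Filter
open Pool.Agent.Helper81K1.OJ Pool.Agent.Helper81K1.LP

theorem many (A : ℕ) (hA : 2 ≤ A) : ∃ c : ℝ, 0 < c ∧ ∃ N₀ : ℕ, ∀ N ≥ N₀, Odd N → Nat.Perfect N →
    (N.primeFactors.card : ℝ) ≤ Real.log (Real.log N) ^ A →
    (∀ p ∈ N.primeFactors, (p : ℝ) ≤ Real.exp (Real.log (Real.log N) ^ A)) →
    c * Real.log (Real.log N) / Real.log (Real.log (Real.log N)) ^ 2 ≤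
      ((N.primeFactors.filter (fun p : ℕ => Real.exp (c * Real.log (Real.log N) ^ 2 /
        Real.log (Real.log (Real.log N)) ^ 2) < (p : ℝ))).card : ℝ) := by
  classical
  have hA2 : (2:ℝ) ≤ A := by exact_mod_cast hA
  obtain ⟨K, hK⟩ : ∃ K : ℝ, K = 4205 * (A:ℝ) ^ 2 := ⟨_, rfl⟩
  have hK4 : 16820 ≤ K := by
    rw [hK]
    have : (2:ℝ) ^ 2 ≤ (A:ℝ) ^ 2 := pow_le_pow_left₀ (by norm_num) hA2 2
    linarith
  have hK0 : 0 < K := by linarith
  have hAK : (A:ℝ) ≤ K := by
    rw [hK]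
    have : (A:ℝ) ≤ (A:ℝ) ^ 2 := le_self_pow₀ (by linarith) (by norm_num)
    linarith
  obtain ⟨c, hc⟩ : ∃ c : ℝ, c = 1 / (20 * K) := ⟨_, rfl⟩
  have hc0 : 0 < c := by rw [hc]; positivity
  have hc1 : c ≤ 1 := by
    rw [hc, div_le_one (by positivity)]
    linarith
  have hcK : c * K = 1 / 20 := by rw [hc]; field_simp
  refine ⟨c, hc0, ?_⟩
  have ev := (ev_log_pow (100 * K) 2 (a := 1) (by norm_num)).and
    ((Real.tendsto_log_atTop.eventually_ge_atTop 1).and (eventually_ge_atTop (5 : ℝ)))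
  obtain ⟨x0, hx0⟩ := eventually_atTop.1 ev
  refine ⟨⌈Real.exp (Real.exp x0)⌉₊ + 1, fun N hN hodd hperf hω hP => ?_⟩
  have H : OPN N := ⟨hodd, hperf⟩
  have hNx : Real.exp (Real.exp x0) ≤ N := by
    have h1 : Real.exp (Real.exp x0) ≤ ⌈Real.exp (Real.exp x0)⌉₊ := Nat.le_ceil _
    have h2 : ((⌈Real.exp (Real.exp x0)⌉₊ : ℕ) : ℝ) ≤ N := by
      exact_mod_cast (by omega : ⌈Real.exp (Real.exp x0)⌉₊ ≤ N)
    linarith
  have hN0 : (0:ℝ) < N := lt_of_lt_of_le (Real.exp_pos _) hNx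
  have hlogN : Real.exp x0 ≤ Real.log N := by rw [Real.le_log_iff_exp_le hN0]; exact hNx
  have hlogN0 : 0 < Real.log N := lt_of_lt_of_le (Real.exp_pos _) hlogN
  obtain ⟨x, hx⟩ : ∃ x : ℝ, x = Real.log (Real.log N) := ⟨_, rfl⟩
  have hxx0 : x0 ≤ x := by rw [hx, Real.le_log_iff_exp_le hlogN0]; exact hlogN
  rw [← hx] at hω hP ⊢
  obtain ⟨ev1, ev5, ev6⟩ := hx0 x hxx0
  rw [Real.rpow_one] at ev1
  have hxpos : 0 < x := by linarith
  have hx1 : 1 ≤ x := by linarith
  obtain ⟨w, hw⟩ : ∃ w : ℝ, w = Real.log x := ⟨_, rfl⟩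
  rw [← hw] at ev1 ev5 ⊢
  have hw0 : 0 < w := by linarith
  by_contra hcon
  rw [not_le] at hcon
  have hne : N.primeFactors.Nonempty := by
    rw [Nat.nonempty_primeFactors]
    have h0 := H.ne_zero
    have h1 := H.ne_one
    omega
  obtain ⟨k, hk⟩ : ∃ k : ℕ, k = N.primeFactors.card := ⟨_, rfl⟩
  rw [← hk] at hω
  have hk1 : 1 ≤ k := by rw [hk]; exact Finset.card_pos.2 hne
  have hk1r : (1:ℝ) ≤ k := by exact_mod_cast hk1
  obtain ⟨κ, hκ⟩ : ∃ κ : ℝ, κ = Real.log k := ⟨_, rfl⟩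
  have hκ0 : 0 ≤ κ := by rw [hκ]; exact Real.log_nonneg hk1r
  have hlogxA : Real.log (x ^ A) = A * w := by rw [Real.log_pow, hw]
  have hκw : κ ≤ A * w := by
    rw [hκ, ← hlogxA]
    exact Real.log_le_log (by linarith) hω
  -- `Z`
  have hxA2 : x ^ 2 ≤ x ^ A := pow_le_pow_right₀ hx1 hA
  have hx2 : 25 ≤ x ^ 2 := by
    have := pow_le_pow_left₀ (by norm_num) ev6 2
    norm_num at this
    exact this
  obtain ⟨Z, hZ⟩ : ∃ Z : ℕ, Z = ⌊Real.exp (x ^ A)⌋₊ := ⟨_, rfl⟩
  have h73 : 73 ≤ Z := by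
    rw [hZ]
    apply Nat.le_floor
    push_cast
    have h1 : (25:ℝ) ≤ x ^ A := hx2.trans hxA2
    have h2 : Real.exp 25 ≤ Real.exp (x ^ A) := Real.exp_le_exp.2 h1
    have h3 : (73:ℝ) ≤ Real.exp 25 := by
      have e1 : Real.exp 25 = Real.exp 1 ^ 25 := by rw [← Real.exp_nat_mul]; norm_num
      have e2 : (2:ℝ) ^ 25 ≤ Real.exp 1 ^ 25 :=
        pow_le_pow_left₀ (by norm_num) (by linarith [Real.exp_one_gt_d9]) 25
      rw [e1]
      exact le_trans (by norm_num) e2
    linarith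
  have hPZ : ∀ p ∈ N.primeFactors, p ≤ Z := fun p hp => by rw [hZ]; exact Nat.le_floor (hP p hp)
  have hZ0 : (0:ℝ) < Z := by exact_mod_cast (by omega : 0 < Z)
  have hlogZ : Real.log Z ≤ x ^ A := by
    rw [Real.log_le_iff_le_exp hZ0, hZ]
    exact Nat.floor_le (Real.exp_pos _).le
  have hlogZ1 : 1 ≤ Real.log Z := by
    refine log3.trans (Real.log_le_log (by norm_num) ?_)
    exact_mod_cast (by omega : 3 ≤ Z)
  obtain ⟨lam, hlam⟩ : ∃ lam : ℝ, lam = Real.log (Real.log Z) := ⟨_, rfl⟩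
  have hlam0 : 0 ≤ lam := by rw [hlam]; exact Real.log_nonneg hlogZ1
  have hlamw : lam ≤ A * w := by
    rw [hlam, ← hlogxA]
    exact Real.log_le_log (by linarith) hlogZ
  -- `L` and `Y`
  obtain ⟨L, hL⟩ : ∃ L : ℝ, L = c * x ^ 2 / w ^ 2 := ⟨_, rfl⟩
  rw [← hL] at hcon
  have hw2pos : 0 < w ^ 2 := by positivity
  have hw21 : 1 ≤ w ^ 2 := one_le_pow₀ ev5
  have hwx : 100 * K * w ^ 2 ≤ x := ev1.le
  have hL5 : 5 ≤ L := by
    rw [hL, le_div_iff₀ hw2pos]
    have e1 : 100 * K * w ^ 2 * 1 ≤ x * x := mul_le_mul hwx hx1 (by norm_num) hxpos.le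
    have e2 : c * (100 * K * w ^ 2 * 1) ≤ c * (x * x) := mul_le_mul_of_nonneg_left e1 hc0.le
    have e3 : c * (100 * K * w ^ 2 * 1) = 100 * (c * K) * w ^ 2 := by ring
    rw [e3, hcK] at e2
    have e4 : c * x ^ 2 = c * (x * x) := by ring
    rw [e4]
    linarith
  have hLpos : 0 < L := by linarith
  have hLx2 : L ≤ x ^ 2 := by
    rw [hL, div_le_iff₀ hw2pos]
    calc c * x ^ 2 ≤ 1 * x ^ 2 := mul_le_mul_of_nonneg_right hc1 (by positivity)
      _ = x ^ 2 * 1 := by ring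
      _ ≤ x ^ 2 * w ^ 2 := mul_le_mul_of_nonneg_left hw21 (by positivity)
  obtain ⟨Y, hY⟩ : ∃ Y : ℕ, Y = ⌊Real.exp L⌋₊ := ⟨_, rfl⟩
  have hYZ : Y ≤ Z := by
    rw [hY, hZ]
    exact Nat.floor_le_floor (Real.exp_le_exp.2 (hLx2.trans hxA2))
  have hY3 : 3 ≤ Y := by
    rw [hY]
    apply Nat.le_floor
    push_cast
    have := Real.add_one_le_exp L
    linarith
  have hYpos : (0:ℝ) < Y := by exact_mod_cast (by omega : 0 < Y)
  have hlogYL : Real.log Y ≤ L := by
    rw [Real.log_le_iff_le_exp hYpos, hY]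
    exact Nat.floor_le (Real.exp_pos _).le
  -- the number of large primes
  obtain ⟨b, hb⟩ : ∃ b : ℕ, b = (N.primeFactors.filter (fun p => Y < p)).card := ⟨_, rfl⟩
  have hbx : (b:ℝ) ≤ c * x / w ^ 2 := by
    refine le_trans ?_ hcon.le
    rw [hb, Nat.cast_le]
    refine Finset.card_le_card ?_
    intro p hp
    rw [Finset.mem_filter] at hp ⊢
    refine ⟨hp.1, ?_⟩
    rw [hY] at hp
    exact Nat.lt_of_floor_lt hp.2
  have hb0 : (0:ℝ) ≤ b := Nat.cast_nonneg _
  have hbw2 : (b:ℝ) * w ^ 2 ≤ c * x := by rwa [le_div_iff₀ hw2pos] at hbx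
  have hw2 : w ≤ w ^ 2 := le_self_pow₀ ev5 (by norm_num)
  have hbw : (b:ℝ) * w ≤ c * x := (mul_le_mul_of_nonneg_left hw2 hb0).trans hbw2
  have hcx : c * x ≤ x / 20 := by
    have : c ≤ 1 / 20 := by
      have e1 : c * 1 ≤ c * K := mul_le_mul_of_nonneg_left (by linarith) hc0.le
      rw [hcK] at e1
      linarith
    have := mul_le_mul_of_nonneg_right this hxpos.le
    linarith
  have hbx1 : (b:ℝ) + 1 ≤ x := by
    have e1 : (b:ℝ) * 1 ≤ b * w := mul_le_mul_of_nonneg_left ev5 hb0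
    linarith
  have hlog3 : Real.log 3 ≤ 2 := by
    have := Real.log_le_sub_one_of_pos (show (0:ℝ) < 3 by norm_num)
    linarith
  have hAw : w ≤ A * w := le_mul_of_one_le_left hw0.le (by linarith)
  -- start
  have hst : ∃ q ∈ N.primeFactors, q ≤ Y ∧ x / 2 ≤ Real.log (N.factorization q) := by
    by_contra hno
    push Not at hno
    obtain ⟨E, hE⟩ : ∃ E : ℕ, E = ⌊Real.exp (x / 2)⌋₊ := ⟨_, rfl⟩
    have hE1 : 1 ≤ E := by
      rw [hE]
      apply Nat.le_floor
      push_cast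
      exact Real.one_le_exp (by positivity)
    have hEle : (E:ℝ) ≤ Real.exp (x / 2) := by rw [hE]; exact Nat.floor_le (Real.exp_pos _).le
    obtain ⟨y, hyd⟩ : ∃ y : ℕ, y = ⌈Real.log Z⌉₊ := ⟨_, rfl⟩
    have hyge : Real.log Z ≤ y := by rw [hyd]; exact Nat.le_ceil _
    have hy1r : (1:ℝ) ≤ y := by linarith
    have hy1 : 1 ≤ y := by exact_mod_cast hy1r
    have hyle : (y:ℝ) ≤ 2 * x ^ A := by
      have h1 : (y:ℝ) < Real.log Z + 1 := by rw [hyd]; exact Nat.ceil_lt_add_one (by positivity)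
      linarith
    have hsm : ∀ q ∈ N.primeFactors, q ≤ Y → N.factorization q ≤ E := by
      intro q hq hqY
      have h1 := hno q hq hqY
      have h2 : (0:ℝ) < N.factorization q := by exact_mod_cast H.one_le_e hq
      rw [hE]
      apply Nat.le_floor
      rw [Real.log_lt_iff_lt_exp h2] at h1
      exact h1.le
    have h1 := start H Y Z y b E h73 hPZ (le_of_eq hb.symm) hE1 hy1 hyge hsm
    rw [← hk] at h1
    obtain ⟨B, hB⟩ : ∃ B : ℝ, B = 16 * 10 ^ 9 * ((b:ℝ) + 1) ^ 6 * (y:ℝ) ^ 5 := ⟨_, rfl⟩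
    rw [← hB] at h1
    have ht1 : (0:ℝ) < (b:ℝ) + 1 := by positivity
    have hB0 : 0 < B := by rw [hB]; positivity
    have hEpos : (0:ℝ) < E := by exact_mod_cast hE1
    have h2 : x ≤ κ + (Real.log 3 + κ + Real.log y + (2 * ((b:ℝ) + 1)) * Real.log B +
        Real.log E) + Real.log y := by
      have h3 := Real.log_le_log hlogN0 h1
      rw [← hx] at h3
      refine h3.trans (le_of_eq ?_)
      rw [Real.log_mul (by positivity) (by positivity), Real.log_mul (by positivity) (by positivity),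
        Real.log_mul (by positivity) (by positivity), Real.log_mul (by positivity) (by positivity),
        Real.log_mul (by positivity) (by positivity), Real.log_mul (by positivity) (by positivity),
        Real.log_pow, hκ]
      push_cast
      ring
    have hlogE : Real.log E ≤ x / 2 := by
      rw [Real.log_le_iff_le_exp hEpos]; exact hEle
    have hlogy : Real.log y ≤ 2 * (A * w) := by
      have hlog2 : Real.log 2 < 0.6931471808 := Real.log_two_lt_d9
      calc Real.log y ≤ Real.log (2 * x ^ A) := Real.log_le_log (by linarith) hyle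
        _ = Real.log 2 + A * w := by rw [Real.log_mul (by norm_num) (by positivity), hlogxA]
        _ ≤ _ := by linarith
    have hlogb : Real.log ((b:ℝ) + 1) ≤ w := by rw [hw]; exact Real.log_le_log ht1 hbx1
    have hlogB : Real.log B ≤ 42 * (A * w) := by
      have hl10 := log10
      have h1 : Real.log B ≤ 11 * Real.log 10 + 6 * Real.log ((b:ℝ) + 1) + 5 * Real.log y := by
        calc Real.log B ≤ Real.log (10 ^ 11 * ((b:ℝ) + 1) ^ 6 * (y:ℝ) ^ 5) := by
              apply Real.log_le_log hB0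
              rw [hB]
              apply mul_le_mul_of_nonneg_right _ (by positivity)
              apply mul_le_mul_of_nonneg_right _ (by positivity)
              norm_num
          _ = _ := by
            rw [Real.log_mul (by positivity) (by positivity), Real.log_mul (by positivity) (by positivity),
              Real.log_pow, Real.log_pow, Real.log_pow]
            push_cast
            ring
      linarith
    have hBt : (2 * ((b:ℝ) + 1)) * Real.log B ≤ 84 * (A * (b * w)) + 84 * (A * w) := by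
      calc (2 * ((b:ℝ) + 1)) * Real.log B ≤ (2 * ((b:ℝ) + 1)) * (42 * (A * w)) :=
            mul_le_mul_of_nonneg_left hlogB (by positivity)
        _ = _ := by ring
    have hAb : (A:ℝ) * (b * w) ≤ x / 1000 := by
      have e1 : (A:ℝ) * (b * w) ≤ A * (c * x) := mul_le_mul_of_nonneg_left hbw (by linarith)
      have e2 : (A:ℝ) * c ≤ 1 / 1000 := by
        have e3 : (A:ℝ) * 4205 ≤ K := by
          rw [hK]
          have : (A:ℝ) ≤ (A:ℝ) ^ 2 := le_self_pow₀ (by linarith) (by norm_num)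
          linarith
        have e4 : (A:ℝ) * 4205 * c ≤ K * c := mul_le_mul_of_nonneg_right e3 hc0.le
        have e5 : K * c = 1 / 20 := by rw [mul_comm]; exact hcK
        rw [e5] at e4
        linarith
      have e6 : (A:ℝ) * c * x ≤ 1 / 1000 * x := mul_le_mul_of_nonneg_right e2 hxpos.le
      linarith
    have hAwx : (A:ℝ) * w ≤ x / 1000 := by
      have e3 : (A:ℝ) * 4205 ≤ K := by
        rw [hK]
        have : (A:ℝ) ≤ (A:ℝ) ^ 2 := le_self_pow₀ (by linarith) (by norm_num)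
        linarith
      have e4 : (A:ℝ) * 4205 * w ≤ K * w ^ 2 := mul_le_mul e3 hw2 hw0.le hK0.le
      linarith
    linarith
  obtain ⟨q, hq, hqY, hqF⟩ := hst
  obtain ⟨F, hF⟩ : ∃ F : ℝ, F = Real.log (N.factorization q) := ⟨_, rfl⟩
  rw [← hF] at hqF
  have hmain := main_i2 H Y Z b h73 hYZ hPZ (le_of_eq hb.symm) q hq hqY 2 le_rfl
  rw [← hk, ← hF, ← hκ, ← hlam] at hmain
  have hFpos : 0 < F := by linarith
  have hlog2 : 0.6931471803 < Real.log 2 := Real.log_two_gt_d9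
  have h5 : 1 + κ / Real.log 2 ≤ 2.45 * (A * w) := by
    have : κ / Real.log 2 ≤ 1.45 * κ := by
      rw [div_le_iff₀ (by linarith)]
      have e1 : 1.45 * κ * 0.69 ≤ 1.45 * κ * Real.log 2 :=
        mul_le_mul_of_nonneg_left (by linarith) (by positivity)
      linarith
    linarith
  have hLF : Real.log Y / F ≤ 2 * L / x := by
    rw [div_le_div_iff₀ hFpos hxpos]
    have e1 : x / 2 * (2 * L) ≤ F * (2 * L) := mul_le_mul_of_nonneg_right hqF (by positivity)
    have e2 : Real.log Y * x ≤ L * x := mul_le_mul_of_nonneg_right hlogYL hxpos.le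
    linarith
  have hLx : 2 * L / x = 2 * c * x / w ^ 2 := by
    rw [hL]; field_simp
  have hLY0 : 0 ≤ Real.log Y := Real.log_natCast_nonneg _
  have h7 : F ≤ 1716 * (2.45 * (A * w)) * (A * w * (3 + 2 * (2 * c * x / w ^ 2) + c * x / w ^ 2)) := by
    refine hmain.trans ?_
    apply mul_le_mul
    · exact mul_le_mul_of_nonneg_left h5 (by norm_num)
    · have e1 : (2 * (1 + Real.log Y / F) + b) ≤ 2 + 2 * (2 * c * x / w ^ 2) + c * x / w ^ 2 := by
        rw [hLx] at hLF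
        linarith
      have e2 : (2 * (1 + Real.log Y / F) + b) * lam ≤
          (2 + 2 * (2 * c * x / w ^ 2) + c * x / w ^ 2) * (A * w) :=
        mul_le_mul e1 hlamw hlam0 (by positivity)
      have e3 : A * w * (3 + 2 * (2 * c * x / w ^ 2) + c * x / w ^ 2) =
        A * w + (2 + 2 * (2 * c * x / w ^ 2) + c * x / w ^ 2) * (A * w) := by ring
      rw [e3]
      linarith
    · have : 0 ≤ Real.log Y / F := by positivity
      positivity
    · positivity
  have h8 : 1716 * (2.45 * (A * w)) * (A * w * (3 + 2 * (2 * c * x / w ^ 2) + c * x / w ^ 2)) =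
      4204.2 * (A:ℝ) ^ 2 * (3 * w ^ 2 + 5 * (c * x)) := by
    field_simp
    ring
  rw [h8] at h7
  have h9 : 4204.2 * (A:ℝ) ^ 2 * (3 * w ^ 2 + 5 * (c * x)) ≤ K * (3 * w ^ 2 + 5 * (c * x)) := by
    apply mul_le_mul_of_nonneg_right _ (by positivity)
    rw [hK]
    have : 0 ≤ (A:ℝ) ^ 2 := by positivity
    linarith
  have h10 : K * (3 * w ^ 2 + 5 * (c * x)) = 3 * (K * w ^ 2) + 5 * (c * K) * x := by ring
  rw [h10, hcK] at h9
  linarith

end Pool.Agent.Helper81K1.LR
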