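import Mathlib
import Pool.Agent.Helper81K1.LR.Pot4

/-!
The size of an odd perfect number, the number of its prime factors, the largest one, and the number of the
prime factors larger than `Y`.
-/

set_option autoImplicit false

namespace Pool.Agent.Helper81K1.LR

open Finset
open Pool.Agent.Helper81K1.OJ Pool.Agent.Helper81K1.LP

theorem main_b {N : ℕ} (H : OPN N) (Y Z b : ℕ) (h73 : 73 ≤ Z) (hYZ : Y ≤ Z)
    (hZ : ∀ p ∈ N.primeFactors, p ≤ Z) (hb0 : (N.primeFactors.filter (fun p => Y < p)).card ≤ b) :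
    Real.log (Real.log N) ≤
      140 * √((1 + Real.log N.primeFactors.card) * Real.log (Real.log Z) * Real.log Y) +
      2400 * (b + 1) * ((1 + Real.log N.primeFactors.card) * Real.log (Real.log Z)) := by
  classical
  have hZr : (73:ℝ) ≤ Z := by exact_mod_cast h73
  have hZ0 : (0:ℝ) < Z := by linarith
  obtain ⟨M, hM⟩ : ∃ M : ℝ, M = Real.log Z := ⟨_, rfl⟩
  have hM4 : 3 ≤ M := by
    rw [hM, Real.le_log_iff_exp_le hZ0]
    have h1 : Real.exp 3 = Real.exp 1 ^ 3 := by rw [← Real.exp_nat_mul]; norm_num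
    have h2 : Real.exp 1 ^ 3 ≤ 2.7182818286 ^ 3 :=
      pow_le_pow_left₀ (Real.exp_pos 1).le Real.exp_one_lt_d9.le 3
    rw [h1]
    refine h2.trans (le_trans (by norm_num) hZr)
  obtain ⟨ℓ, hℓ⟩ : ∃ ℓ : ℝ, ℓ = Real.log M := ⟨_, rfl⟩
  have hℓ1 : 1 ≤ ℓ := by rw [hℓ]; exact log3.trans (Real.log_le_log (by norm_num) hM4)
  have hMpos : 0 < M := by linarith
  have hne : N.primeFactors.Nonempty := by
    rw [Nat.nonempty_primeFactors]
    have h0 := H.ne_zero
    have h1 := H.ne_one
    omega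
  obtain ⟨k, hk⟩ : ∃ k : ℕ, k = N.primeFactors.card := ⟨_, rfl⟩
  have hk1 : 1 ≤ k := by rw [hk]; exact Finset.card_pos.2 hne
  have hk1r : (1:ℝ) ≤ k := by exact_mod_cast hk1
  obtain ⟨κ, hκ⟩ : ∃ κ : ℝ, κ = Real.log k := ⟨_, rfl⟩
  have hκ0 : 0 ≤ κ := by rw [hκ]; exact Real.log_nonneg hk1r
  have hN3 : (3:ℝ) ≤ N := by exact_mod_cast three_le_N H
  have hlogN1 : 1 ≤ Real.log N := log3.trans (Real.log_le_log (by norm_num) hN3)
  have hlogN0 : 0 < Real.log N := by linarith
  obtain ⟨x, hx⟩ : ∃ x : ℝ, x = Real.log (Real.log N) := ⟨_, rfl⟩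
  have hx0 : 0 ≤ x := by rw [hx]; exact Real.log_nonneg hlogN1
  -- the number of the prime factors larger than `Y`
  obtain ⟨t, ht⟩ : ∃ t : ℕ, t = (N.primeFactors.filter (fun p => Y < p)).card := ⟨_, rfl⟩
  have hb : (N.primeFactors.filter (fun p => Y < p)).card ≤ t := ht.ge
  have htb : t ≤ b := by rw [ht]; exact hb0
  have htk : t ≤ k := by rw [ht, hk]; exact Finset.card_filter_le _ _
  have htbr : (t:ℝ) ≤ b := by exact_mod_cast htb
  have htkr : (t:ℝ) ≤ k := by exact_mod_cast htk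
  have ht0 : (0:ℝ) ≤ t := Nat.cast_nonneg _
  rw [← hM, ← hℓ, ← hk, ← hκ, ← hx]
  obtain ⟨P, hP⟩ : ∃ P : ℝ, P = (1 + κ) * ℓ := ⟨_, rfl⟩
  rw [← hP]
  have hP1 : 1 ≤ P := by
    rw [hP]
    calc (1:ℝ) = 1 * 1 := by ring
      _ ≤ (1 + κ) * ℓ := mul_le_mul (by linarith) hℓ1 (by norm_num) (by linarith)
  have hP0 : 0 < P := by linarith
  have hPℓ : ℓ ≤ P := by rw [hP]; exact le_mul_of_one_le_left (by linarith) (by linarith)
  have hPκ : κ ≤ P := by
    rw [hP]
    calc κ ≤ (1 + κ) * 1 := by linarith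
      _ ≤ _ := mul_le_mul_of_nonneg_left hℓ1 (by linarith)
  have htP : (t:ℝ) * P ≤ b * P := mul_le_mul_of_nonneg_right htbr hP0.le
  have htP0 : 0 ≤ (t:ℝ) * P := by positivity
  have hgoal : 2400 * ((b:ℝ) + 1) * P = 2400 * (b * P) + 2400 * P := by ring
  rw [hgoal]
  have hT0 : 0 ≤ √(P * Real.log Y) := Real.sqrt_nonneg _
  by_cases hst : ∃ q ∈ N.primeFactors, q ≤ Y ∧ x / 2 ≤ Real.log (N.factorization q)
  · obtain ⟨q, hq, hqY, hqF⟩ := hst
    have hY3 : 3 ≤ Y := (H.three_le hq).trans hqY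
    have hY3r : (3:ℝ) ≤ Y := by exact_mod_cast hY3
    obtain ⟨L, hL⟩ : ∃ L : ℝ, L = Real.log Y := ⟨_, rfl⟩
    have hL1 : 1 ≤ L := by rw [hL]; exact log3.trans (Real.log_le_log (by norm_num) hY3r)
    rw [← hL] at hT0 ⊢
    obtain ⟨T, hT⟩ : ∃ T : ℝ, T = √(P * L) := ⟨_, rfl⟩
    have hPL : 0 < P * L := by positivity
    have hTpos : 0 < T := by rw [hT]; exact Real.sqrt_pos.2 hPL
    have hTT : T * T = P * L := by rw [hT]; exact Real.mul_self_sqrt hPL.le
    rw [← hT] at hT0 ⊢
    obtain ⟨s, hs⟩ : ∃ s : ℝ, s = T / (34 * P) := ⟨_, rfl⟩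
    have hs0 : 0 < s := by rw [hs]; positivity
    obtain ⟨J, hJ⟩ : ∃ J : ℕ, J = ⌈s⌉₊ := ⟨_, rfl⟩
    have hJ1 : 1 ≤ J := by rw [hJ]; exact Nat.one_le_iff_ne_zero.2 (Nat.ceil_pos.2 hs0).ne'
    have hJs : s ≤ J := by rw [hJ]; exact Nat.le_ceil _
    have hJs1 : (J:ℝ) ≤ s + 1 := by rw [hJ]; exact (Nat.ceil_lt_add_one hs0.le).le
    have hJpos : (0:ℝ) < J := by linarith
    have hmain := main_p H Y Z t h73 hYZ hZ hb q hq hqY J 2 hJ1 le_rfl
    rw [← hM, ← hℓ, ← hk, ← hκ, ← hL] at hmain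
    have hPs : 34 * (P * s) = T := by
      rw [hs]
      field_simp
    have h1 : L / J ≤ 34 * T := by
      rw [div_le_iff₀ hJpos]
      have e1 : 34 * T * s = L := by
        have e2 : P * (34 * T * s) = P * L := by
          calc P * (34 * T * s) = T * (34 * (P * s)) := by ring
            _ = P * L := by rw [hPs, hTT]
        exact mul_left_cancel₀ hP0.ne' e2
      calc L = 34 * T * s := e1.symm
        _ ≤ 34 * T * J := mul_le_mul_of_nonneg_left hJs (by positivity)
    have hlog2 : 0.6931471803 < Real.log 2 := Real.log_two_gt_d9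
    have h2 : 1 + κ / Real.log 2 ≤ 1.45 * (1 + κ) := by
      have : κ / Real.log 2 ≤ 1.45 * κ := by
        rw [div_le_iff₀ (by linarith)]
        have e1 : 1.45 * κ * 0.69 ≤ 1.45 * κ * Real.log 2 :=
          mul_le_mul_of_nonneg_left (by linarith) (by positivity)
        linarith
      linarith
    have h3 : 400 * (1 + κ / Real.log 2) * ((J:ℝ) * 2 + t) * ℓ ≤
        400 * (1.45 * (1 + κ)) * ((J:ℝ) * 2 + t) * ℓ := by
      apply mul_le_mul_of_nonneg_right _ (by linarith)
      apply mul_le_mul_of_nonneg_right _ (by positivity)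
      exact mul_le_mul_of_nonneg_left h2 (by norm_num)
    push_cast at hmain
    have h4 : 400 * (1.45 * (1 + κ)) * ((J:ℝ) * 2 + t) * ℓ = 1160 * (P * J) + 580 * (t * P) := by
      rw [hP]; ring
    have h5 : P * J ≤ P * s + P := by
      calc P * (J:ℝ) ≤ P * (s + 1) := mul_le_mul_of_nonneg_left hJs1 hP0.le
        _ = _ := by ring
    rw [h4] at h3
    linarith
  · push Not at hst
    obtain ⟨E, hE⟩ : ∃ E : ℕ, E = ⌊Real.exp (x / 2)⌋₊ := ⟨_, rfl⟩
    have hE1 : 1 ≤ E := by
      rw [hE]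
      apply Nat.le_floor
      push_cast
      exact Real.one_le_exp (by positivity)
    have hEle : (E:ℝ) ≤ Real.exp (x / 2) := by rw [hE]; exact Nat.floor_le (Real.exp_pos _).le
    obtain ⟨y, hyd⟩ : ∃ y : ℕ, y = ⌈Real.log Z⌉₊ := ⟨_, rfl⟩
    have hyge : Real.log Z ≤ y := by rw [hyd]; exact Nat.le_ceil _
    rw [← hM] at hyd
    have hy1r : (1:ℝ) ≤ y := by rw [← hM] at hyge; linarith
    have hy1 : 1 ≤ y := by exact_mod_cast hy1r
    have hyle : (y:ℝ) ≤ 2 * M := by
      have h1 : (y:ℝ) < M + 1 := by rw [hyd]; exact Nat.ceil_lt_add_one (by positivity)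
      linarith
    have hsm : ∀ q ∈ N.primeFactors, q ≤ Y → N.factorization q ≤ E := by
      intro q hq hqY
      have h1 := hst q hq hqY
      have h2 : (0:ℝ) < N.factorization q := by exact_mod_cast H.one_le_e hq
      rw [hE]
      apply Nat.le_floor
      rw [Real.log_lt_iff_lt_exp h2] at h1
      exact h1.le
    have h1 := start H Y Z y t E h73 hZ hb hE1 hy1 hyge hsm
    rw [← hk] at h1
    obtain ⟨B, hB⟩ : ∃ B : ℝ, B = 16 * 10 ^ 9 * ((t:ℝ) + 1) ^ 6 * (y:ℝ) ^ 5 := ⟨_, rfl⟩
    rw [← hB] at h1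
    have ht1 : (0:ℝ) < (t:ℝ) + 1 := by positivity
    have hB0 : 0 < B := by rw [hB]; positivity
    have hEpos : (0:ℝ) < E := by exact_mod_cast hE1
    have h2 : x ≤ κ + (Real.log 3 + κ + Real.log y + (2 * ((t:ℝ) + 1)) * Real.log B +
        Real.log E) + Real.log y := by
      have h3 := Real.log_le_log hlogN0 h1
      rw [← hx] at h3
      refine h3.trans (le_of_eq ?_)
      rw [Real.log_mul (by positivity) (by positivity), Real.log_mul (by positivity) (by positivity),
        Real.log_mul (by positivity) (by positivity), Real.log_mul (by positivity) (by positivity),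
        Real.log_mul (by positivity) (by positivity), Real.log_mul (by positivity) (by positivity),
        Real.log_pow, hκ]
      push_cast
      ring
    have hlogE : Real.log E ≤ x / 2 := by
      rw [Real.log_le_iff_le_exp hEpos]; exact hEle
    have hlog2 : Real.log 2 < 0.6931471808 := Real.log_two_lt_d9
    have hlogy : Real.log y ≤ 2 * ℓ := by
      calc Real.log y ≤ Real.log (2 * M) := Real.log_le_log (by linarith) hyle
        _ = Real.log 2 + ℓ := by rw [Real.log_mul (by norm_num) hMpos.ne', hℓ]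
        _ ≤ _ := by linarith
    have hlog3 : Real.log 3 ≤ 2 := by
      have := Real.log_le_sub_one_of_pos (show (0:ℝ) < 3 by norm_num)
      linarith
    have hlt : Real.log ((t:ℝ) + 1) ≤ 1 + κ := by
      calc Real.log ((t:ℝ) + 1) ≤ Real.log (2 * k) := Real.log_le_log ht1 (by linarith)
        _ = Real.log 2 + κ := by rw [Real.log_mul (by norm_num) (by positivity), hκ]
        _ ≤ _ := by linarith
    have hlogB : Real.log B ≤ 42 * P := by
      have hl10 := log10
      have h1 : Real.log B ≤ 11 * Real.log 10 + 6 * Real.log ((t:ℝ) + 1) + 5 * Real.log y := by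
        calc Real.log B ≤ Real.log (10 ^ 11 * ((t:ℝ) + 1) ^ 6 * (y:ℝ) ^ 5) := by
              apply Real.log_le_log hB0
              rw [hB]
              apply mul_le_mul_of_nonneg_right _ (by positivity)
              apply mul_le_mul_of_nonneg_right _ (by positivity)
              norm_num
          _ = _ := by
            rw [Real.log_mul (by positivity) (by positivity), Real.log_mul (by positivity) (by positivity),
              Real.log_pow, Real.log_pow, Real.log_pow]
            push_cast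
            ring
      have h2 : 1 + κ ≤ P := by rw [hP]; exact le_mul_of_one_le_right (by linarith) hℓ1
      linarith
    have hBt : (2 * ((t:ℝ) + 1)) * Real.log B ≤ 84 * (t * P) + 84 * P := by
      calc (2 * ((t:ℝ) + 1)) * Real.log B ≤ (2 * ((t:ℝ) + 1)) * (42 * P) :=
              mul_le_mul_of_nonneg_left hlogB (by positivity)
        _ = _ := by ring
    linarith

end Pool.Agent.Helper81K1.LR
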